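import Mathlib

set_option autoImplicit false
set_option maxHeartbeats 400000

/-! Module for helper22: counting in chains of subgroups. -/

namespace Pool.Agent.Zk22.NG

open Finset

lemma card_rel {G : Type} [Group G] {A B : Subgroup G} (h : A ≤ B) : Nat.card A * A.relIndex B = Nat.card B := by
  rw [← Subgroup.relIndex_bot_left A, ← Subgroup.relIndex_bot_left B]
  exact Subgroup.relIndex_mul_relIndex _ _ _ bot_le h

lemma card_step {G : Type} [Group G] [Finite G] (H Q' Q : Subgroup G) (h : Q' ≤ Q) :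
    Nat.card (H ⊓ Q : Subgroup G) * Nat.card Q' ≤ Nat.card (H ⊓ Q' : Subgroup G) * Nat.card Q := by
  have hA : H ⊓ Q' ≤ H ⊓ Q := inf_le_inf_left _ h
  have h1 := card_rel hA
  have h2 := card_rel h
  have e : H ⊓ Q' = Q' ⊓ (H ⊓ Q) := by
    apply le_antisymm
    · exact le_inf inf_le_right hA
    · exact le_inf (inf_le_right.trans inf_le_left) inf_le_left
  have h3 : (H ⊓ Q').relIndex (H ⊓ Q) ≤ Q'.relIndex Q := by
    rw [e, Subgroup.inf_relIndex_right]
    exact Subgroup.relIndex_le_of_le_right inf_le_right (fun h0 => by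
      rw [h0, mul_zero] at h2
      exact Nat.card_pos.ne h2)
  calc Nat.card (H ⊓ Q : Subgroup G) * Nat.card Q' =
      Nat.card (H ⊓ Q' : Subgroup G) * (H ⊓ Q').relIndex (H ⊓ Q) * Nat.card Q' := by rw [h1]
    _ ≤ Nat.card (H ⊓ Q' : Subgroup G) * Q'.relIndex Q * Nat.card Q' :=
        Nat.mul_le_mul_right _ (Nat.mul_le_mul_left _ h3)
    _ = Nat.card (H ⊓ Q' : Subgroup G) * (Nat.card Q' * Q'.relIndex Q) := by ring
    _ = _ := by rw [h2]

theorem count {G : Type} [Group G] [Finite G] (R : Finset ℚ) (H : ℚ → Subgroup G) (K : Subgroup G) (E : ℕ)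
    (hK : ∀ s ∈ R, K ≤ H s)
    (hstep : ∀ Q : Subgroup G, K ≤ Q → K ≠ Q → ∃ T ⊆ R, T.card ≤ E ∧ ∃ Q' : Subgroup G, K ≤ Q' ∧ Q' < Q ∧
      ∀ s ∈ R \ T, H s ⊓ Q ≤ Q') :
    (∏ s ∈ R, Nat.card (H s)) * Nat.card K ^ E ≤ Nat.card G ^ E * Nat.card K ^ R.card := by
  have key : ∀ (n : ℕ) (Q : Subgroup G), Nat.card Q = n → K ≤ Q →
      (∏ s ∈ R, Nat.card (H s ⊓ Q : Subgroup G)) * Nat.card K ^ E ≤ Nat.card Q ^ E * Nat.card K ^ R.card := by
    intro n
    induction n using Nat.strong_induction_on with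
    | _ n ih =>
      intro Q hn hKQ
      by_cases hne : K = Q
      · have h1 : ∏ s ∈ R, Nat.card (H s ⊓ Q : Subgroup G) = Nat.card K ^ R.card := by
          rw [prod_congr rfl (g := fun _ => Nat.card K), prod_const]
          intro s hs
          rw [← hne, inf_eq_right.2 (hK s hs)]
        rw [h1, ← hne, mul_comm]
      · obtain ⟨T, hTR, hTE, Q', hKQ', hlt, hs⟩ := hstep Q hKQ hne
        have hle : Q' ≤ Q := hlt.le
        have hclt : Nat.card Q' < Nat.card Q := by
          have h1 : Nat.card Q' ∣ Nat.card Q := Subgroup.card_dvd_of_le hle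
          refine lt_of_le_of_ne (Nat.le_of_dvd Nat.card_pos h1) fun h2 => ?_
          exact hlt.ne (Subgroup.eq_of_le_of_card_ge hle h2.ge)
        have h1 := ih _ (hn ▸ hclt) Q' rfl hKQ'
        have h2 : (∏ s ∈ R, Nat.card (H s ⊓ Q : Subgroup G)) * Nat.card Q' ^ T.card ≤
            (∏ s ∈ R, Nat.card (H s ⊓ Q' : Subgroup G)) * Nat.card Q ^ T.card := by
          rw [← prod_sdiff hTR, ← prod_sdiff hTR]
          have h3 : ∏ s ∈ R \ T, Nat.card (H s ⊓ Q : Subgroup G) = ∏ s ∈ R \ T, Nat.card (H s ⊓ Q' : Subgroup G) := by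
            apply prod_congr rfl
            intro s hs'
            congr 2
            have : H s ⊓ Q = H s ⊓ Q' :=
              le_antisymm (le_inf inf_le_left (hs s hs')) (inf_le_inf_left _ hle)
            rw [this]
          have h4 : (∏ s ∈ T, Nat.card (H s ⊓ Q : Subgroup G)) * Nat.card Q' ^ T.card ≤
              (∏ s ∈ T, Nat.card (H s ⊓ Q' : Subgroup G)) * Nat.card Q ^ T.card := by
            rw [← prod_const, ← prod_const, ← prod_mul_distrib, ← prod_mul_distrib]
            exact prod_le_prod' fun s _ => card_step (H s) Q' Q hle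
          rw [h3, mul_assoc, mul_assoc]
          exact Nat.mul_le_mul_left _ h4
        have hpos : 0 < Nat.card Q' ^ T.card := pow_pos Nat.card_pos _
        refine Nat.le_of_mul_le_mul_right ?_ hpos
        calc (∏ s ∈ R, Nat.card (H s ⊓ Q : Subgroup G)) * Nat.card K ^ E * Nat.card Q' ^ T.card
            = (∏ s ∈ R, Nat.card (H s ⊓ Q : Subgroup G)) * Nat.card Q' ^ T.card * Nat.card K ^ E := by ring
          _ ≤ (∏ s ∈ R, Nat.card (H s ⊓ Q' : Subgroup G)) * Nat.card Q ^ T.card * Nat.card K ^ E :=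
              Nat.mul_le_mul_right _ h2
          _ = ((∏ s ∈ R, Nat.card (H s ⊓ Q' : Subgroup G)) * Nat.card K ^ E) * Nat.card Q ^ T.card := by ring
          _ ≤ (Nat.card Q' ^ E * Nat.card K ^ R.card) * Nat.card Q ^ T.card := Nat.mul_le_mul_right _ h1
          _ = (Nat.card Q ^ T.card * Nat.card Q' ^ (E - T.card)) * Nat.card Q' ^ T.card * Nat.card K ^ R.card := by
              rw [mul_assoc (Nat.card Q ^ T.card), ← pow_add, Nat.sub_add_cancel hTE]
              ring
          _ ≤ (Nat.card Q ^ T.card * Nat.card Q ^ (E - T.card)) * Nat.card Q' ^ T.card * Nat.card K ^ R.card := by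
              gcongr
          _ = Nat.card Q ^ E * Nat.card K ^ R.card * Nat.card Q' ^ T.card := by
              rw [← pow_add, Nat.add_sub_cancel' hTE]
              ring
  have h := key _ ⊤ rfl le_top
  rw [Subgroup.card_top] at h
  simpa using h

end Pool.Agent.Zk22.NG
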